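import Pool.Agent.V5helper9.PL.Lad

/-!
# The main lemma
-/

set_option autoImplicit false
set_option linter.unusedSectionVars false

namespace Pool.Agent.V5helper9.PL

open Finset SimpleGraph Pool.Agent.Y384.EC

theorem CC_pos (k : ℕ) : 1 ≤ CC k := by
  unfold CC
  have h1 := Nat.pow_pos (n := k) (BB_pos k)
  have h2 : 1 ≤ BB k ^ k * (DD k + 1) := Nat.mul_pos h1 (by omega)
  exact Nat.mul_pos (by omega) h2

section

variable {V : Type*} [Fintype V] [DecidableEq V] {G : SimpleGraph V} {k : ℕ}

theorem joined_one {a b : V} (h : G.Adj a b) : Joined G 1 a b := by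
  refine ⟨Walk.cons h Walk.nil, ?_, rfl⟩
  rw [Walk.cons_isPath_iff]
  refine ⟨Walk.IsPath.nil, ?_⟩
  rw [Walk.support_nil, List.mem_singleton]
  exact h.ne

theorem joined_two {a b c : V} (h : G.Adj a b) (h' : G.Adj b c) (hac : a ≠ c) :
    Joined G 2 a c := by
  refine ⟨Walk.cons h (Walk.cons h' Walk.nil), ?_, rfl⟩
  rw [Walk.cons_isPath_iff, Walk.cons_isPath_iff]
  refine ⟨⟨Walk.IsPath.nil, ?_⟩, ?_⟩
  · rw [Walk.support_nil, List.mem_singleton]
    exact h'.ne
  · rw [Walk.support_cons, Walk.support_nil, List.mem_cons, List.mem_singleton]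
    rintro (h1 | h1)
    · exact h.ne h1
    · exact hac h1

theorem near (hk : 2 ≤ k) (hG : (cycleGraph (2 * k)).Free G) (z g : V → V)
    (R : Finset (V × V)) (hR : ∀ p ∈ R, G.Adj p.1 p.2 ∧ G.Adj (z p.1) p.1 ∧
      G.Adj (g p.2) p.2 ∧ G.Adj (z p.1) (g p.2)) : R.card ≤ CC k * Fintype.card V := by
  have h1 := walks k 1 1 le_rfl le_rfl (by omega) (by omega) (by omega) G hG z g
  rw [Nat.card_eq_fintype_card] at h1
  refine le_trans ?_ h1
  rw [← Set.ncard_coe_finset]
  refine Set.ncard_le_ncard ?_ (Set.toFinite _)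
  intro p hp
  obtain ⟨h2, h3, h4, h5⟩ := hR p hp
  exact ⟨h2, Or.inr h5, joined_one h3.symm, joined_one h4.symm⟩

theorem equal (hk : 2 ≤ k) (hG : (cycleGraph (2 * k)).Free G) (z g : V → V)
    (R : Finset (V × V)) (hR : ∀ p ∈ R, G.Adj p.1 p.2 ∧ G.Adj (z p.1) p.1 ∧
      z p.1 ≠ p.2 ∧ z p.1 = g p.2) : R.card ≤ CC k * Fintype.card V := by
  rcases Nat.lt_or_ge 2 k with h3 | h3
  · have h1 := walks k 1 2 le_rfl (by omega) (by omega) (by omega) (by omega) G hG z g
    rw [Nat.card_eq_fintype_card] at h1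
    refine le_trans ?_ h1
    rw [← Set.ncard_coe_finset]
    refine Set.ncard_le_ncard ?_ (Set.toFinite _)
    intro p hp
    obtain ⟨h2, h3, h4, h5⟩ := hR p hp
    refine ⟨h2, Or.inl h5, joined_one h3.symm, ?_⟩
    rw [← h5]
    exact joined_two h2.symm h3.symm (Ne.symm h4)
  · have hk2 : k = 2 := by omega
    subst hk2
    have h1 : R.card ≤ Fintype.card V := by
      rw [← card_univ]
      refine card_le_card_of_injOn Prod.snd (fun _ _ => by simp) ?_
      rintro ⟨a, b⟩ hp ⟨a', b'⟩ hp' hab
      simp only at hab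
      subst hab
      obtain ⟨h2, h3, h4, h5⟩ := hR _ hp
      obtain ⟨h2', h3', h4', h5'⟩ := hR _ hp'
      simp only at h2 h3 h4 h5 h2' h3' h4' h5'
      by_contra hne
      have haa : a ≠ a' := fun h => hne (by rw [h])
      -- the cycle `b a w a'`
      refine hG ?_
      have hseq : Seq G (fun i => if i = 0 then b else if i = 1 then a else if i = 2 then g b
          else a') 4 := by
        refine ⟨fun i hi => ?_, fun i hi j hj hij => ?_⟩
        · have : i = 0 ∨ i = 1 ∨ i = 2 := by omega
          rcases this with rfl | rfl | rfl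
          · simpa using h2.symm
          · simpa [← h5] using h3.symm
          · simpa [← h5'] using h3'
        · have n1 : b ≠ a := h2.ne'
          have n2 : b ≠ g b := fun h => h4 (h5.trans h.symm)
          have n3 : b ≠ a' := h2'.ne'
          have n4 : a ≠ g b := by
            rw [← h5]
            exact h3.ne'
          have n5 : g b ≠ a' := by
            rw [← h5']
            exact h3'.ne
          have hi' : i = 0 ∨ i = 1 ∨ i = 2 ∨ i = 3 := by omega
          have hj' : j = 0 ∨ j = 1 ∨ j = 2 ∨ j = 3 := by omega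
          rcases hi' with rfl | rfl | rfl | rfl <;> rcases hj' with rfl | rfl | rfl | rfl <;>
            first
            | rfl
            | (exfalso
               simp at hij
               first
               | exact n1 hij
               | exact n2 hij
               | exact n3 hij
               | exact n4 hij
               | exact n5 hij
               | exact haa hij
               | exact n1 hij.symm
               | exact n2 hij.symm
               | exact n3 hij.symm
               | exact n4 hij.symm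
               | exact n5 hij.symm
               | exact haa hij.symm)
      exact cycle_of_seq hseq (by omega) (by simpa using h2')
    exact h1.trans (Nat.le_mul_of_pos_left _ (CC_pos 2))

/-- `a` is marked by `w` at `b`. -/
def Mk (G : SimpleGraph V) (z z' : V → V) (b a w : V) : Prop :=
  (G.Adj w b ∧ (G.Adj (z a) w ∨ G.Adj (z' a) w)) ∨ z a = w ∨ z' a = w

/-- The pairs under consideration. -/
def FF (G : SimpleGraph V) (t : V → V → V) (z z' : V → V) (a b : V) : Prop :=
  G.Adj a b ∧ G.Adj (z a) a ∧ G.Adj (z' a) a ∧ z a ≠ b ∧ z' a ≠ b ∧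
    ∀ a', G.Adj a' b → G.Adj (z a) (t a a') ∧ G.Adj (z' a) (t a' a)

/-- The choice `a` for the next vertex is bad. -/
def Bad (t : V → V → V) (z z' : V → V) (S : Finset V) (a' a : V) : Prop :=
  a ∈ S ∨ t a' a ∈ S ∨ t a a' ∈ S ∨ z a ∈ S ∨ z' a ∈ S ∨ t a' a = a ∨ t a a' = a

theorem marked_one (hk : 2 ≤ k) (hG : (cycleGraph (2 * k)).Free G) (t : V → V → V)
    (z z' : V → V) (F : Finset (V × V)) (hF : ∀ p ∈ F, FF G t z z' p.1 p.2) (g : V → V) :
    {p : V × V | p ∈ F ∧ Mk G z z' p.2 p.1 (g p.2)}.ncard ≤ 4 * (CC k * Fintype.card V) := by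
  classical
  have hsub : {p : V × V | p ∈ F ∧ Mk G z z' p.2 p.1 (g p.2)} ⊆
      ↑((F.filter (fun p => G.Adj (g p.2) p.2 ∧ G.Adj (z p.1) (g p.2)) ∪
        F.filter (fun p => G.Adj (g p.2) p.2 ∧ G.Adj (z' p.1) (g p.2))) ∪
        (F.filter (fun p => z p.1 = g p.2) ∪ F.filter (fun p => z' p.1 = g p.2))) := by
    rintro p ⟨hp, ⟨h1, h2 | h2⟩ | h2 | h2⟩
    · exact mem_union_left _ (mem_union_left _ (mem_filter.2 ⟨hp, h1, h2⟩))
    · exact mem_union_left _ (mem_union_right _ (mem_filter.2 ⟨hp, h1, h2⟩))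
    · exact mem_union_right _ (mem_union_left _ (mem_filter.2 ⟨hp, h2⟩))
    · exact mem_union_right _ (mem_union_right _ (mem_filter.2 ⟨hp, h2⟩))
  refine (Set.ncard_le_ncard hsub (Set.toFinite _)).trans ?_
  rw [Set.ncard_coe_finset]
  have h1 := near hk hG z g (F.filter (fun p => G.Adj (g p.2) p.2 ∧ G.Adj (z p.1) (g p.2)))
    (by
      intro p hp
      obtain ⟨hp, h1, h2⟩ := mem_filter.1 hp
      have h3 := hF p hp
      exact ⟨h3.1, h3.2.1, h1, h2⟩)
  have h2 := near hk hG z' g (F.filter (fun p => G.Adj (g p.2) p.2 ∧ G.Adj (z' p.1) (g p.2)))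
    (by
      intro p hp
      obtain ⟨hp, h1, h2⟩ := mem_filter.1 hp
      have h3 := hF p hp
      exact ⟨h3.1, h3.2.2.1, h1, h2⟩)
  have h3 := equal hk hG z g (F.filter (fun p => z p.1 = g p.2))
    (by
      intro p hp
      obtain ⟨hp, h1⟩ := mem_filter.1 hp
      have h3 := hF p hp
      exact ⟨h3.1, h3.2.1, h3.2.2.2.1, h1⟩)
  have h4 := equal hk hG z' g (F.filter (fun p => z' p.1 = g p.2))
    (by
      intro p hp
      obtain ⟨hp, h1⟩ := mem_filter.1 hp
      have h3 := hF p hp
      exact ⟨h3.1, h3.2.2.1, h3.2.2.2.2.1, h1⟩)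
  have h5 := card_union_le (F.filter (fun p => G.Adj (g p.2) p.2 ∧ G.Adj (z p.1) (g p.2)))
    (F.filter (fun p => G.Adj (g p.2) p.2 ∧ G.Adj (z' p.1) (g p.2)))
  have h6 := card_union_le (F.filter (fun p => z p.1 = g p.2))
    (F.filter (fun p => z' p.1 = g p.2))
  refine (card_union_le _ _).trans ?_
  omega

theorem enum (S : Finset V) (s : ℕ) (hS : S.card ≤ s) (v0 : V) :
    ∃ e : ℕ → V, ∀ w ∈ S, ∃ l < s, e l = w := by
  refine ⟨fun l => S.toList.getD l v0, fun w hw => ?_⟩
  obtain ⟨l, hl, hlw⟩ := List.getElem_of_mem (mem_toList.2 hw)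
  refine ⟨l, ?_, ?_⟩
  · rw [length_toList] at hl
    omega
  · rw [← hlw]
    exact List.getD_eq_getElem _ _ hl

theorem marked_sum (hk : 2 ≤ k) (hG : (cycleGraph (2 * k)).Free G) (t : V → V → V)
    (z z' : V → V) (F : Finset (V × V)) (hF : ∀ p ∈ F, FF G t z z' p.1 p.2) (s : ℕ)
    (S : V → Finset V) (hS : ∀ b, (S b).card ≤ s) :
    {p : V × V | p ∈ F ∧ ∃ w ∈ S p.2, Mk G z z' p.2 p.1 w}.ncard ≤
      s * (4 * (CC k * Fintype.card V)) := by
  classical
  have he : ∀ b, ∃ e : ℕ → V, ∀ w ∈ S b, ∃ l < s, e l = w := fun b => enum (S b) s (hS b) b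
  choose e he using he
  have hsub : {p : V × V | p ∈ F ∧ ∃ w ∈ S p.2, Mk G z z' p.2 p.1 w}.toFinset ⊆
      (range s).biUnion
        (fun l => {p : V × V | p ∈ F ∧ Mk G z z' p.2 p.1 (e p.2 l)}.toFinset) := by
    intro p hp
    rw [Set.mem_toFinset] at hp
    obtain ⟨hp, w, hw, hm⟩ := hp
    obtain ⟨l, hl, rfl⟩ := he p.2 w hw
    refine mem_biUnion.2 ⟨l, mem_range.2 hl, ?_⟩
    rw [Set.mem_toFinset]
    exact ⟨hp, hm⟩
  rw [Set.ncard_eq_toFinset_card']
  refine (card_le_card hsub).trans (card_biUnion_le.trans ((sum_le_card_nsmul _ _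
    (4 * (CC k * Fintype.card V)) ?_).trans ?_))
  · intro l _
    rw [← Set.ncard_eq_toFinset_card']
    exact marked_one hk hG t z z' F hF (fun b => e b l)
  · rw [card_range, smul_eq_mul]

theorem used_ext (v w : ℕ → V) (n : ℕ) (x y : V) :
    used (ext v n x) (ext w n y) (n + 1) ⊆ insert x (insert y (used v w n)) := by
  intro c hc
  rcases mem_union.1 hc with h | h
  · obtain ⟨i, hi, rfl⟩ := mem_image.1 h
    rcases Nat.lt_or_ge i n with h1 | h1
    · rw [ext_lt h1]
      exact mem_insert_of_mem (mem_insert_of_mem (mem_used_left h1))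
    · rw [ext_ge h1]
      exact mem_insert_self _ _
  · obtain ⟨i, hi, rfl⟩ := mem_image.1 h
    rcases Nat.lt_or_ge i n with h1 | h1
    · rw [ext_lt h1]
      exact mem_insert_of_mem (mem_insert_of_mem (mem_used_right h1))
    · rw [ext_ge h1]
      exact mem_insert_of_mem (mem_insert_self _ _)

/-- One step of the greedy construction. -/
theorem step {v w : ℕ → V} {n : ℕ} (hL : Lad G v w (n + 1)) {a b x y : V}
    (h1 : G.Adj (v n) b) (h2 : G.Adj (w n) x) (h3 : G.Adj x b) (h4 : G.Adj a b)
    (h5 : G.Adj y a) (h6 : G.Adj y x) (hb : b ∉ used v w (n + 1))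
    (ha : a ∉ insert b (used v w (n + 1))) (hx : x ∉ insert b (used v w (n + 1)))
    (hy : y ∉ insert b (used v w (n + 1))) (hxa : x ≠ a) :
    ∃ v' w' : ℕ → V, Lad G v' w' (n + 3) ∧ v' (n + 2) = a ∧ w' (n + 2) = y := by
  rw [mem_insert, not_or] at ha hx hy
  have hL1 := hL.snoc h1 h2 h3.symm hb hx.2
  have hL2 := hL1.snoc (x := a) (y := y) (by
      rw [ext_ge le_rfl]
      exact h4.symm) (by
      rw [ext_ge le_rfl]
      exact h6.symm) h5.symm (fun h => by
      have := used_ext _ _ _ _ _ h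
      rw [mem_insert, mem_insert] at this
      rcases this with h | h | h
      · exact ha.1 h
      · exact hxa h.symm
      · exact ha.2 h) (fun h => by
      have := used_ext _ _ _ _ _ h
      rw [mem_insert, mem_insert] at this
      rcases this with h | h | h
      · exact hy.1 h
      · exact h6.ne h
      · exact hy.2 h)
  exact ⟨_, _, hL2, ext_ge le_rfl, ext_ge le_rfl⟩

theorem climb (hk : 2 ≤ k) (hG : (cycleGraph (2 * k)).Free G) (t : V → V → V)
    (hn : ∀ a a' b, G.Adj a b → G.Adj a' b → G.Adj (t a a') b) (z z' : V → V) (s : ℕ)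
    (hs : 4 * k + 4 ≤ s) (A : Finset (V × V)) (hne : A.Nonempty)
    (hA : ∀ p ∈ A, FF G t z z' p.1 p.2)
    (h1 : ∀ p ∈ A, s < (A.filter (fun q => q.1 = p.1)).card)
    (h2 : ∀ p ∈ A, ∀ S : Finset V, S.card ≤ s → ∃ a, (a, p.2) ∈ A ∧ ¬ Bad t z z' S p.1 a) :
    False := by
  classical
  have key : ∀ n ≤ k, ∃ v w : ℕ → V, Lad G v w (2 * n + 1) ∧ (∃ b, (v (2 * n), b) ∈ A) ∧
      ((n % 2 = 0 → w (2 * n) = z (v (2 * n))) ∧ (n % 2 = 1 → w (2 * n) = z' (v (2 * n)))) := by
    intro n
    induction n with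
    | zero =>
      intro _
      obtain ⟨p, hp⟩ := hne
      have h3 := (hA p hp).2.1
      refine ⟨fun _ => p.1, fun _ => z p.1, ⟨⟨fun i hi => by omega, fun i hi j hj _ => by omega⟩,
        ⟨fun i hi => by omega, fun i hi j hj _ => by omega⟩, fun i hi => h3.symm,
        fun i hi j hj => h3.ne'⟩, ⟨p.2, hp⟩, fun _ => rfl, fun h => by omega⟩
    | succ n ih =>
      intro hnk
      obtain ⟨v, w, hL, ⟨b0, hb0⟩, hw0, hw1⟩ := ih (by omega)
      have hcard := used_card v w (2 * n + 1)
      -- the next `b`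
      obtain ⟨b, hbA, hb⟩ : ∃ b, (v (2 * n), b) ∈ A ∧ b ∉ used v w (2 * n + 1) := by
        by_contra hno
        push Not at hno
        have h3 := h1 _ hb0
        have h4 : (A.filter (fun q => q.1 = v (2 * n))).card ≤ (used v w (2 * n + 1)).card := by
          refine card_le_card_of_injOn Prod.snd ?_ ?_
          · intro q hq
            rw [mem_coe, mem_filter] at hq
            exact hno q.2 (by rw [← hq.2]; exact hq.1)
          · intro q hq q' hq' h
            rw [mem_coe, mem_filter] at hq hq'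
            exact Prod.ext (hq.2.trans hq'.2.symm) h
        simp only at h3
        omega
      obtain ⟨a, haA, hbad⟩ := h2 _ hbA (insert b (used v w (2 * n + 1))) (by
        have := card_insert_le b (used v w (2 * n + 1))
        omega)
      simp only [Bad, not_or] at hbad
      obtain ⟨n1, n2, n3, n4, n5, n6, n7⟩ := hbad
      have hF1 := hA _ hbA
      have hF2 := hA _ haA
      simp only at haA
      obtain ⟨e1, e2, e3, -, -, e6⟩ := hF1
      obtain ⟨f1, f2, f3, -, -, f6⟩ := hF2
      simp only at e1 e2 e3 e6 f1 f2 f3 f6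
      rcases Nat.mod_two_eq_zero_or_one n with hpar | hpar
      · obtain ⟨v', w', hL', hv', hw'⟩ := step hL (x := t (v (2 * n)) a) (y := z' a) e1
          (by rw [hw0 hpar]; exact (e6 a f1).1) (hn _ _ _ e1 f1) f1 f3 (f6 _ e1).2 hb n1 n2 n5 n6
        refine ⟨v', w', hL', ⟨b, ?_⟩, fun h => by omega, fun _ => ?_⟩
        · rw [show 2 * (n + 1) = 2 * n + 2 by ring, hv']
          exact haA
        · rw [show 2 * (n + 1) = 2 * n + 2 by ring, hv', hw']
      · obtain ⟨v', w', hL', hv', hw'⟩ := step hL (x := t a (v (2 * n))) (y := z a) e1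
          (by rw [hw1 hpar]; exact (e6 a f1).2) (hn _ _ _ f1 e1) f1 f2 (f6 _ e1).1 hb n1 n3 n4 n7
        refine ⟨v', w', hL', ⟨b, ?_⟩, fun _ => ?_, fun h => by omega⟩
        · rw [show 2 * (n + 1) = 2 * n + 2 by ring, hv']
          exact haA
        · rw [show 2 * (n + 1) = 2 * n + 2 by ring, hv', hw']
  obtain ⟨v, w, hL, -⟩ := key k le_rfl
  exact hG ((hL.take (by omega)).cycle hk)

/-- The constant. -/
def KK (k : ℕ) : ℕ := 3 * (4 * k + 4) + 1 + 16 * (4 * k + 4) * CC k

theorem two_ptr (hk : 2 ≤ k) (hG : (cycleGraph (2 * k)).Free G) (t : V → V → V)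
    (hn : ∀ a a' b, G.Adj a b → G.Adj a' b → G.Adj (t a a') b) (z z' : V → V)
    (F : Finset (V × V)) (hF : ∀ p ∈ F, FF G t z z' p.1 p.2) :
    F.card ≤ KK k * Fintype.card V := by
  classical
  set s := 4 * k + 4 with hs
  rcases elim (fun (p : V × V) (A : Finset (V × V)) =>
      (A.filter (fun q => q.1 = p.1)).card ≤ s ∨
      ∃ S : Finset V, S.card ≤ s ∧ ∀ a, (a, p.2) ∈ A → Bad t z z' S p.1 a) F with
    ⟨A, hAF, hne, hA⟩ | ⟨ρ, hρ, hdel⟩
  · exfalso
    refine climb hk hG t hn z z' s le_rfl A hne (fun p hp => hF p (hAF hp)) ?_ ?_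
    · intro p hp
      have := hA p hp
      push Not at this
      exact this.1
    · intro p hp S hS
      have := hA p hp
      push Not at this
      exact this.2 S hS
  · set F1 := F.filter (fun p => ((F.filter (fun y => ρ p ≤ ρ y)).filter
      (fun q => q.1 = p.1)).card ≤ s) with hF1
    set F2 := F.filter (fun p => ∃ S : Finset V, S.card ≤ s ∧
      ∀ a, (a, p.2) ∈ F.filter (fun y => ρ p ≤ ρ y) → Bad t z z' S p.1 a) with hF2
    have hcov : F ⊆ F1 ∪ F2 := by
      intro p hp
      rcases hdel p hp with h | h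
      · exact mem_union_left _ (mem_filter.2 ⟨hp, h⟩)
      · exact mem_union_right _ (mem_filter.2 ⟨hp, h⟩)
    have hc1 : F1.card ≤ s * Fintype.card V := by
      have h1 : F1.card ≤ s * (F1.image Prod.fst).card := by
        refine card_le_mul_card_image _ _ ?_
        intro a ha
        rcases (F1.filter (fun p => p.1 = a)).eq_empty_or_nonempty with h0 | h0
        · rw [h0, card_empty]
          exact Nat.zero_le _
        · obtain ⟨p, hp, hmin⟩ := exists_min_image _ ρ h0
          obtain ⟨hp1, hp2⟩ := mem_filter.1 hp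
          refine (card_le_card ?_).trans (mem_filter.1 hp1).2
          intro q hq
          obtain ⟨hq1, hq2⟩ := mem_filter.1 hq
          exact mem_filter.2 ⟨mem_filter.2 ⟨(mem_filter.1 hq1).1, hmin q hq⟩, hq2.trans hp2.symm⟩
      exact h1.trans (Nat.mul_le_mul_left _ (card_le_univ _))
    have hS : ∀ p : V × V, ∃ S : Finset V, p ∈ F2 → (S.card ≤ s ∧
        ∀ a, (a, p.2) ∈ F.filter (fun y => ρ p ≤ ρ y) → Bad t z z' S p.1 a) := by
      intro p
      by_cases hp : p ∈ F2
      · obtain ⟨S, hS⟩ := (mem_filter.1 hp).2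
        exact ⟨S, fun _ => hS⟩
      · exact ⟨∅, fun h => absurd h hp⟩
    choose S hS using hS
    have hb : ∀ b : V, ∃ S0 : Finset V, S0.card ≤ s ∧
        (F2.filter (fun p => p.2 = b)).card ≤
          4 * (F.filter (fun p => p.2 = b ∧ ∃ w ∈ S0, Mk G z z' p.2 p.1 w)).card +
            (2 * s + 1) := by
      intro b
      set T : Finset V := univ.filter (fun a => (a, b) ∈ F2) with hT
      obtain ⟨S0, h1, h2⟩ := marks T (fun a => ρ (a, b)) (by
          intro a ha a' ha' h
          have h3 := (mem_filter.1 (mem_filter.1 ha).2).1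
          have h4 := (mem_filter.1 (mem_filter.1 ha').2).1
          exact congrArg Prod.fst (hρ _ h3 _ h4 h)) s (by omega) (fun a => S (a, b))
        (fun a ha => (hS (a, b) (mem_filter.1 ha).2).1) (Mk G z z' b) (by
          intro a ha a' ha' hlt
          have h3 := (mem_filter.1 ha).2
          have h4 := (mem_filter.1 (mem_filter.1 ha').2).1
          have h5 := hF _ (mem_filter.1 h3).1
          have h6 := hF _ h4
          obtain ⟨e1, e2, e3, -, -, e6⟩ := h5
          obtain ⟨f1, f2, f3, -, -, f6⟩ := h6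
          simp only at e1 e2 e3 e6 f1 f2 f3 f6
          rcases (hS (a, b) h3).2 a' (mem_filter.2 ⟨h4, hlt.le⟩) with
            h | h | h | h | h | h | h
          · exact Or.inl h
          · exact Or.inr (Or.inl ⟨_, h, Or.inl ⟨hn _ _ _ e1 f1, Or.inr (f6 a e1).2⟩⟩)
          · exact Or.inr (Or.inl ⟨_, h, Or.inl ⟨hn _ _ _ f1 e1, Or.inl (f6 a e1).1⟩⟩)
          · exact Or.inr (Or.inl ⟨_, h, Or.inr (Or.inl rfl)⟩)
          · exact Or.inr (Or.inl ⟨_, h, Or.inr (Or.inr rfl)⟩)
          · refine Or.inr (Or.inr (Or.inl ⟨f1, Or.inl ?_⟩))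
            have := (e6 a' f1).1
            simp only at h
            rwa [h] at this
          · refine Or.inr (Or.inr (Or.inl ⟨f1, Or.inr ?_⟩))
            have := (e6 a' f1).2
            simp only at h
            rwa [h] at this)
      refine ⟨S0, h1, ?_⟩
      have h3 : (F2.filter (fun p => p.2 = b)).card ≤ T.card := by
        refine card_le_card_of_injOn Prod.fst ?_ ?_
        · intro p hp
          rw [mem_coe, mem_filter] at hp
          refine mem_coe.2 (mem_filter.2 ⟨mem_univ _, ?_⟩)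
          rw [← hp.2]
          exact hp.1
        · intro p hp q hq h
          rw [mem_coe, mem_filter] at hp hq
          exact Prod.ext h (hp.2.trans hq.2.symm)
      have h4 : (T.filter (fun x => ∃ w ∈ S0, Mk G z z' b x w)).card ≤
          (F.filter (fun p => p.2 = b ∧ ∃ w ∈ S0, Mk G z z' p.2 p.1 w)).card := by
        refine card_le_card_of_injOn (fun a => (a, b)) ?_ ?_
        · intro a ha
          rw [mem_coe, mem_filter] at ha
          exact mem_coe.2 (mem_filter.2 ⟨(mem_filter.1 (mem_filter.1 ha.1).2).1, rfl, ha.2⟩)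
        · intro a _ a' _ h
          exact congrArg Prod.fst h
      omega
    choose S0 hS0 hS1 using hb
    have hc2 : F2.card ≤ 4 * (s * (4 * (CC k * Fintype.card V))) +
        (2 * s + 1) * Fintype.card V := by
      have h1 : F2.card = ∑ b : V, (F2.filter (fun p => p.2 = b)).card :=
        card_eq_sum_card_fiberwise (fun _ _ => by simp)
      have h2 : ∑ b : V, (F.filter (fun p => p.2 = b ∧
          ∃ w ∈ S0 b, Mk G z z' p.2 p.1 w)).card ≤ s * (4 * (CC k * Fintype.card V)) := by
        refine le_trans ?_ (marked_sum hk hG t z z' F hF s S0 hS0)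
        rw [Set.ncard_eq_toFinset_card']
        rw [card_eq_sum_card_fiberwise (f := Prod.snd) (t := (univ : Finset V))
          (fun _ _ => by simp)]
        refine sum_le_sum fun b _ => card_le_card ?_
        intro p hp
        obtain ⟨h3, h4, h5⟩ := mem_filter.1 hp
        refine mem_filter.2 ⟨?_, h4⟩
        rw [Set.mem_toFinset]
        refine ⟨h3, ?_⟩
        rw [h4]
        rw [h4] at h5
        exact h5
      rw [h1]
      refine (sum_le_sum fun b _ => hS1 b).trans ?_
      rw [sum_add_distrib, ← mul_sum, sum_const, smul_eq_mul, card_univ]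
      have h3 := Nat.mul_le_mul_left 4 h2
      have h4 := Nat.mul_comm (Fintype.card V) (2 * s + 1)
      omega
    calc F.card ≤ F1.card + F2.card := (card_le_card hcov).trans (card_union_le _ _)
      _ ≤ s * Fintype.card V + (4 * (s * (4 * (CC k * Fintype.card V))) +
          (2 * s + 1) * Fintype.card V) := Nat.add_le_add hc1 hc2
      _ = KK k * Fintype.card V := by
        unfold KK
        rw [← hs]
        ring

end

end Pool.Agent.V5helper9.PL
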