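import Pool.Agent.Y384.EC.Walks
import Pool.Agent.H96.Median

/-!
# Ladders, an elimination lemma and a counting lemma
-/

set_option autoImplicit false

namespace Pool.Agent.V5helper9.PL

open Finset SimpleGraph Pool.Agent.Y384.EC

/-- A ladder with `n` rungs. -/
structure Lad {V : Type*} (G : SimpleGraph V) (v w : ℕ → V) (n : ℕ) : Prop where
  sv : Seq G v n
  sw : Seq G w n
  rung : ∀ i < n, G.Adj (v i) (w i)
  dis : ∀ i < n, ∀ j < n, v i ≠ w j

theorem Lad.take {V : Type*} {G : SimpleGraph V} {v w : ℕ → V} {n m : ℕ} (h : Lad G v w n)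
    (hm : m ≤ n) : Lad G v w m :=
  ⟨h.sv.take hm, h.sw.take hm, fun i hi => h.rung i (by omega),
    fun i hi j hj => h.dis i (by omega) j (by omega)⟩

theorem Lad.cycle {V : Type*} {G : SimpleGraph V} {v w : ℕ → V} {k : ℕ} (hk : 2 ≤ k)
    (h : Lad G v w k) : cycleGraph (2 * k) ⊑ G := by
  have h1 : Seq G (app v k (rv w k)) (k + k) := by
    refine h.sv.app h.sw.rv (by omega) ?_ ?_
    · unfold rv
      rw [show k - 1 - 0 = k - 1 by omega]
      exact h.rung _ (by omega)
    · intro i hi j hj
      unfold rv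
      exact h.dis i hi _ (by omega)
  rw [two_mul]
  refine cycle_of_seq h1 (by omega) ?_
  unfold app rv
  rw [if_neg (by omega), if_pos (by omega), show k - 1 - (k + k - 1 - k) = 0 by omega]
  exact (h.rung 0 (by omega)).symm

/-- The vertices of a ladder. -/
def used {V : Type*} [DecidableEq V] (v w : ℕ → V) (n : ℕ) : Finset V :=
  (range n).image v ∪ (range n).image w

theorem used_card {V : Type*} [DecidableEq V] (v w : ℕ → V) (n : ℕ) :
    (used v w n).card ≤ 2 * n := by
  refine (card_union_le _ _).trans ?_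
  have h1 : ((range n).image v).card ≤ n := card_image_le.trans (card_range n).le
  have h2 : ((range n).image w).card ≤ n := card_image_le.trans (card_range n).le
  omega

theorem mem_used_left {V : Type*} [DecidableEq V] {v w : ℕ → V} {n i : ℕ} (hi : i < n) :
    v i ∈ used v w n :=
  mem_union_left _ (mem_image.2 ⟨i, mem_range.2 hi, rfl⟩)

theorem mem_used_right {V : Type*} [DecidableEq V] {v w : ℕ → V} {n i : ℕ} (hi : i < n) :
    w i ∈ used v w n :=
  mem_union_right _ (mem_image.2 ⟨i, mem_range.2 hi, rfl⟩)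

/-- `v 0, …, v (n - 1), x, x, …` -/
def ext {V : Type*} (v : ℕ → V) (n : ℕ) (x : V) (i : ℕ) : V := if i < n then v i else x

theorem ext_lt {V : Type*} {v : ℕ → V} {n : ℕ} {x : V} {i : ℕ} (h : i < n) :
    ext v n x i = v i := if_pos h

theorem ext_ge {V : Type*} {v : ℕ → V} {n : ℕ} {x : V} {i : ℕ} (h : n ≤ i) :
    ext v n x i = x := if_neg (by omega)

theorem seq_snoc {V : Type*} {G : SimpleGraph V} {v : ℕ → V} {n : ℕ} (h : Seq G v (n + 1))
    {x : V} (hx : G.Adj (v n) x) (hn : ∀ i < n + 1, v i ≠ x) : Seq G (ext v (n + 1) x) (n + 2) := by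
  refine ⟨fun i hi => ?_, fun i hi j hj hij => ?_⟩
  · rcases Nat.lt_or_ge (i + 1) (n + 1) with h1 | h1
    · rw [ext_lt (by omega), ext_lt h1]
      exact h.1 i h1
    · rw [ext_lt (by omega), ext_ge h1, show i = n by omega]
      exact hx
  · rcases Nat.lt_or_ge i (n + 1) with h1 | h1
    · rcases Nat.lt_or_ge j (n + 1) with h2 | h2
      · rw [ext_lt h1, ext_lt h2] at hij
        exact h.2 i h1 j h2 hij
      · rw [ext_lt h1, ext_ge h2] at hij
        exact absurd hij (hn i h1)
    · rcases Nat.lt_or_ge j (n + 1) with h2 | h2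
      · rw [ext_ge h1, ext_lt h2] at hij
        exact absurd hij.symm (hn j h2)
      · omega

theorem Lad.snoc {V : Type*} [DecidableEq V] {G : SimpleGraph V} {v w : ℕ → V} {n : ℕ}
    (h : Lad G v w (n + 1)) {x y : V} (hx : G.Adj (v n) x) (hy : G.Adj (w n) y)
    (hxy : G.Adj x y) (hxu : x ∉ used v w (n + 1)) (hyu : y ∉ used v w (n + 1)) :
    Lad G (ext v (n + 1) x) (ext w (n + 1) y) (n + 2) := by
  refine ⟨seq_snoc h.sv hx fun i hi hv => hxu (hv ▸ mem_used_left hi),
    seq_snoc h.sw hy fun i hi hv => hyu (hv ▸ mem_used_right hi), fun i hi => ?_,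
    fun i hi j hj => ?_⟩
  · rcases Nat.lt_or_ge i (n + 1) with h1 | h1
    · rw [ext_lt h1, ext_lt h1]
      exact h.rung i h1
    · rw [ext_ge h1, ext_ge h1]
      exact hxy
  · rcases Nat.lt_or_ge i (n + 1) with h1 | h1
    · rcases Nat.lt_or_ge j (n + 1) with h2 | h2
      · rw [ext_lt h1, ext_lt h2]
        exact h.dis i h1 j h2
      · rw [ext_lt h1, ext_ge h2]
        exact fun hv => hyu (hv ▸ mem_used_left h1)
    · rcases Nat.lt_or_ge j (n + 1) with h2 | h2
      · rw [ext_ge h1, ext_lt h2]
        exact fun hv => hxu (hv ▸ mem_used_right h2)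
      · rw [ext_ge h1, ext_ge h2]
        exact hxy.ne

/-- Either there is a nonempty subset from which nothing is deleted, or everything gets deleted
in some order. -/
theorem elim {α : Type*} [DecidableEq α] (Del : α → Finset α → Prop) (R : Finset α) :
    (∃ A ⊆ R, A.Nonempty ∧ ∀ x ∈ A, ¬ Del x A) ∨
    ∃ ρ : α → ℕ, (∀ x ∈ R, ∀ y ∈ R, ρ x = ρ y → x = y) ∧
      ∀ x ∈ R, Del x (R.filter (fun y => ρ x ≤ ρ y)) := by
  induction R using Finset.strongInduction with
  | H R ih =>
    rcases R.eq_empty_or_nonempty with h0 | h0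
    · right
      refine ⟨fun _ => 0, ?_, ?_⟩
      · intro x hx
        rw [h0] at hx
        exact absurd hx (notMem_empty x)
      · intro x hx
        rw [h0] at hx
        exact absurd hx (notMem_empty x)
    · by_cases hd : ∀ x ∈ R, ¬ Del x R
      · exact Or.inl ⟨R, Subset.refl R, h0, hd⟩
      · push Not at hd
        obtain ⟨x0, hx0, hdel⟩ := hd
        rcases ih (R.erase x0) (erase_ssubset hx0) with ⟨A, hA, h1, h2⟩ | ⟨ρ, h1, h2⟩
        · exact Or.inl ⟨A, hA.trans (erase_subset _ _), h1, h2⟩
        · right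
          refine ⟨fun y => if y = x0 then 0 else ρ y + 1, ?_, ?_⟩
          · intro x hx y hy hxy
            by_cases hx1 : x = x0
            · by_cases hy1 : y = x0
              · rw [hx1, hy1]
              · simp only [if_pos hx1, if_neg hy1] at hxy
                omega
            · by_cases hy1 : y = x0
              · simp only [if_neg hx1, if_pos hy1] at hxy
                omega
              · simp only [if_neg hx1, if_neg hy1] at hxy
                exact h1 x (mem_erase.2 ⟨hx1, hx⟩) y (mem_erase.2 ⟨hy1, hy⟩) (by omega)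
          · intro x hx
            by_cases hx1 : x = x0
            · have : R.filter (fun y => (if x = x0 then 0 else ρ x + 1) ≤
                  (if y = x0 then 0 else ρ y + 1)) = R := by
                refine filter_true_of_mem fun y _ => ?_
                rw [if_pos hx1]
                exact Nat.zero_le _
              simp only
              rw [this, hx1]
              exact hdel
            · have : R.filter (fun y => (if x = x0 then 0 else ρ x + 1) ≤
                  (if y = x0 then 0 else ρ y + 1)) =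
                  (R.erase x0).filter (fun y => ρ x ≤ ρ y) := by
                ext y
                rw [mem_filter, mem_filter, mem_erase, if_neg hx1]
                by_cases hy1 : y = x0
                · rw [if_pos hy1]
                  constructor
                  · rintro ⟨_, h⟩
                    omega
                  · rintro ⟨⟨h, _⟩, _⟩
                    exact absurd hy1 h
                · rw [if_neg hy1]
                  constructor
                  · rintro ⟨h3, h⟩
                    exact ⟨⟨hy1, h3⟩, by omega⟩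
                  · rintro ⟨⟨_, h3⟩, h⟩
                    exact ⟨h3, by omega⟩
              simp only
              rw [this]
              exact h2 x (mem_erase.2 ⟨hx1, hx⟩)

/-- Counting pairs. -/
theorem marks {α : Type*} [DecidableEq α] (T : Finset α) (ρ : α → ℕ)
    (hρ : ∀ x ∈ T, ∀ y ∈ T, ρ x = ρ y → x = y) (s : ℕ) (hs : 1 ≤ s) (S : α → Finset α)
    (hS : ∀ x ∈ T, (S x).card ≤ s) (M : α → α → Prop) [DecidableRel M]
    (h : ∀ x ∈ T, ∀ y ∈ T, ρ x < ρ y → y ∈ S x ∨ (∃ w ∈ S x, M y w) ∨ M x y) :
    ∃ S0 : Finset α, S0.card ≤ s ∧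
      T.card ≤ 4 * (T.filter (fun x => ∃ w ∈ S0, M x w)).card + 2 * s + 1 := by
  classical
  by_contra hno
  push Not at hno
  -- the number of marks
  set m : Finset α → ℕ := fun S0 => (T.filter (fun x => ∃ w ∈ S0, M x w)).card with hm
  have hb : ∀ S0 : Finset α, S0.card ≤ s → 4 * m S0 + (2 * s + 2) ≤ T.card := by
    intro S0 h0
    have := hno S0 h0
    simp only [hm]
    omega
  set P : Finset (α × α) := (T ×ˢ T).filter
    (fun p => p.2 ∈ S p.1 ∨ (∃ w ∈ S p.1, M p.2 w) ∨ M p.1 p.2) with hP
  have hoff : T.offDiag ⊆ P ∪ P.image Prod.swap := by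
    intro p hp
    obtain ⟨h1, h2, h3⟩ := mem_offDiag.1 hp
    rcases lt_trichotomy (ρ p.1) (ρ p.2) with h4 | h4 | h4
    · exact mem_union_left _ (mem_filter.2 ⟨mem_product.2 ⟨h1, h2⟩, h _ h1 _ h2 h4⟩)
    · exact absurd (hρ _ h1 _ h2 h4) h3
    · exact mem_union_right _ (mem_image.2 ⟨p.swap, mem_filter.2 ⟨mem_product.2 ⟨h2, h1⟩,
        h _ h2 _ h1 h4⟩, Prod.swap_swap p⟩)
  have h1 : T.card * T.card - T.card ≤ 2 * P.card := by
    rw [← offDiag_card]
    refine (card_le_card hoff).trans ((card_union_le _ _).trans ?_)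
    have := card_image_le (s := P) (f := Prod.swap)
    omega
  have h2 : P.card ≤ ∑ x ∈ T, (s + m (S x)) + ∑ y ∈ T, m {y} := by
    have hsub : P ⊆ (T.biUnion (fun x => ({x} : Finset α) ×ˢ
        ((S x) ∪ T.filter (fun y => ∃ w ∈ S x, M y w)))) ∪
        (T.biUnion (fun y => (T.filter (fun x => ∃ w ∈ ({y} : Finset α), M x w)) ×ˢ
          ({y} : Finset α))) := by
      intro p hp
      obtain ⟨h3, h4⟩ := mem_filter.1 hp
      obtain ⟨h5, h6⟩ := mem_product.1 h3
      rcases h4 with h4 | h4 | h4
      · exact mem_union_left _ (mem_biUnion.2 ⟨p.1, h5, mem_product.2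
          ⟨mem_singleton_self _, mem_union_left _ h4⟩⟩)
      · exact mem_union_left _ (mem_biUnion.2 ⟨p.1, h5, mem_product.2
          ⟨mem_singleton_self _, mem_union_right _ (mem_filter.2 ⟨h6, h4⟩)⟩⟩)
      · exact mem_union_right _ (mem_biUnion.2 ⟨p.2, h6, mem_product.2
          ⟨mem_filter.2 ⟨h5, p.2, mem_singleton_self _, h4⟩, mem_singleton_self _⟩⟩)
    refine (card_le_card hsub).trans ((card_union_le _ _).trans (Nat.add_le_add
      (card_biUnion_le.trans (sum_le_sum fun x hx => ?_))
      (card_biUnion_le.trans (sum_le_sum fun y hy => ?_))))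
    · rw [card_product, card_singleton, one_mul]
      exact (card_union_le _ _).trans (Nat.add_le_add_right (hS x hx) _)
    · rw [card_product, card_singleton, mul_one]
  have h3 : 4 * P.card + 4 * T.card ≤ 2 * (T.card * T.card) := by
    have h4 : ∀ x ∈ T, 4 * (s + m (S x)) + 4 * m {x} + 4 ≤ 2 * T.card := by
      intro x hx
      have h5 := hb (S x) (hS x hx)
      have h6 := hb {x} (by rw [card_singleton]; exact hs)
      omega
    have h5 := sum_le_sum h4
    rw [sum_const, smul_eq_mul, sum_add_distrib, sum_add_distrib, sum_const, smul_eq_mul,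
      ← mul_sum, ← mul_sum] at h5
    calc 4 * P.card + 4 * T.card
        ≤ 4 * (∑ x ∈ T, (s + m (S x)) + ∑ y ∈ T, m {y}) + 4 * T.card := by omega
      _ = 4 * ∑ x ∈ T, (s + m (S x)) + 4 * ∑ y ∈ T, m {y} + T.card * 4 := by ring
      _ ≤ T.card * (2 * T.card) := h5
      _ = 2 * (T.card * T.card) := by ring
  have h4 : 2 * s + 2 ≤ T.card := by
    have := hb ∅ (by rw [card_empty]; omega)
    omega
  have h5 : T.card ≤ T.card * T.card := Nat.le_mul_of_pos_left _ (by omega)
  omega

end Pool.Agent.V5helper9.PL
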