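import Pool.Agent.V5helper9.PL.Merge

/-!
# Near unanimity polymorphisms merge all the pairs with a common neighbour
-/

set_option autoImplicit false

namespace Pool.Agent.V5helper9.PL

section

variable {X Y : Type*} {E : X → Y → Prop}

/-- `B` absorbs: `φ` maps the tuples with all entries but one in `B` to `B`. -/
def Absb (E : X → Y → Prop) (m : ℕ) (φ : (Fin m → X) → X) (B : Set X) : Prop :=
  ∀ (l : Fin m) (c : Fin m → X), (∀ i, i ≠ l → c i ∈ B) → (∃ y, E (c l) y) → φ c ∈ B

/-- The members of `B` related to a member of `A`. -/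
def Nb (E : X → Y → Prop) (u v : X) (A B : Set X) : Set X :=
  {x | (∃ a ∈ A, Rel E u v a x) ∧ x ∈ B}

theorem absb_single {m : ℕ} {φ : (Fin m → X) → X} {ψ : (Fin m → Y) → Y} (h : IsNU E m φ ψ)
    (a : X) : Absb E m φ {a} := by
  classical
  intro l c hc _
  have : c = Function.update (fun _ => a) l (c l) := by
    funext i
    by_cases hi : i = l
    · rw [hi, Function.update_self]
    · rw [Function.update_of_ne hi]
      exact hc i hi
  rw [this, h.nu_left]
  rfl

theorem absb_nb {m : ℕ} {φ : (Fin m → X) → X} {ψ : (Fin m → Y) → Y} (h : IsNU E m φ ψ)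
    {u v : X} {A B : Set X} (hA : Absb E m φ A) (hB : Absb E m φ B) :
    Absb E m φ (Nb E u v A B) := by
  classical
  intro l c hc hl
  have hex : ∀ i, ∃ a, (i = l → a = c i) ∧ (i ≠ l → a ∈ A ∧ Rel E u v a (c i)) := by
    intro i
    by_cases hi : i = l
    · exact ⟨c i, fun _ => rfl, fun h' => absurd hi h'⟩
    · obtain ⟨a, ha, hr⟩ := (hc i hi).1
      exact ⟨a, fun h' => absurd h' hi, fun _ => ⟨ha, hr⟩⟩
  choose a ha1 ha2 using hex
  have hal : a l = c l := ha1 l rfl
  refine ⟨⟨φ a, hA l a (fun i hi => (ha2 i hi).1) ?_, ?_⟩, hB l c (fun i hi => (hc i hi).2) hl⟩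
  · rw [hal]
    exact hl
  · refine rel_insert h l a c (fun i hi => (ha2 i hi).2) hal ?_
    rw [hal]
    exact hl

/-- The sets of vertices at the end of walks of length `j` from `a`. -/
def Lev (E : X → Y → Prop) (u v : X) (B : Set X) (a : X) : ℕ → Set X
  | 0 => {a}
  | j + 1 => Nb E u v (Lev E u v B a j) B

theorem loop [Finite X] {m : ℕ} (hm : 1 ≤ m) {φ : (Fin m → X) → X} {ψ : (Fin m → Y) → Y}
    (h : IsNU E m φ ψ) {u v : X} : ∀ (n : ℕ) (B : Set X), B.ncard = n →
    (∀ x ∈ B, ∃ y, E x y) → Absb E m φ B → (∃ a ∈ B, ∃ b ∈ B, Rel E u v a b) →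
    ∃ d, Rel E u v d d := by
  classical
  intro n
  induction n using Nat.strong_induction_on with
  | _ n ih =>
    rintro B hBn hBP hB ⟨a, ha, b, hb, hab⟩
    set L := Lev E u v B a with hL
    have hLB : ∀ j, L j ⊆ B := by
      intro j
      rcases j with _ | j
      · intro x hx
        have : x = a := hx
        rw [this]
        exact ha
      · intro x hx
        exact hx.2
    have hLA : ∀ j, Absb E m φ (L j) := by
      intro j
      induction j with
      | zero => exact absb_single h a
      | succ j ihj => exact absb_nb h ihj hB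
    -- the alternating sequence
    set x : ℕ → X := fun j => if j % 2 = 0 then a else b with hx
    have hxB : ∀ j, x j ∈ B := by
      intro j
      simp only [hx]
      split_ifs
      · exact ha
      · exact hb
    have hxx : ∀ j, Rel E u v (x j) (x (j + 1)) := by
      intro j
      simp only [hx]
      rcases Nat.mod_two_eq_zero_or_one j with hj | hj
      · rw [if_pos hj, if_neg (by omega)]
        exact hab
      · rw [if_neg (by omega), if_pos (by omega)]
        exact hab.symm
    have hxL : ∀ j, x j ∈ L j := by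
      intro j
      induction j with
      | zero => rfl
      | succ j ihj => exact ⟨⟨x j, ihj, hxx j⟩, hxB _⟩
    -- the tuples
    set T : ℕ → Fin m → X := fun t i => if (i : ℕ) < t then x (t - 1) else x t with hT
    have hTB : ∀ t i, T t i ∈ B := by
      intro t i
      simp only [hT]
      split_ifs
      · exact hxB _
      · exact hxB _
    have hφc : ∀ c : X, φ (fun _ => c) = c := by
      intro c
      have := h.nu_left c c ⟨0, hm⟩
      rwa [show Function.update (fun _ => c) ⟨0, hm⟩ c = (fun _ : Fin m => c) from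
        Function.update_eq_self _ _] at this
    have hw : ∀ t ≤ m, φ (T t) ∈ L t := by
      intro t
      induction t with
      | zero =>
        intro _
        have : T 0 = fun _ => a := by
          funext i
          simp only [hT, hx]
          simp
        rw [this, hφc]
        rfl
      | succ t iht =>
        intro ht
        have hlt : t < m := by omega
        have h1 : T t ⟨t, hlt⟩ = T (t + 1) ⟨t, hlt⟩ := by
          simp only [hT]
          rw [if_neg (lt_irrefl _), if_pos (Nat.lt_succ_self _), Nat.add_sub_cancel]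
        have h2 : Rel E u v (φ (T t)) (φ (T (t + 1))) := by
          refine rel_insert h ⟨t, hlt⟩ _ _ (fun i hi => ?_) h1 (hBP _ (hTB _ _))
          have hi' : (i : ℕ) ≠ t := fun h' => hi (Fin.ext h')
          simp only [hT]
          rcases Nat.lt_or_ge (i : ℕ) t with h3 | h3
          · rw [if_pos h3, if_pos (by omega), Nat.add_sub_cancel]
            have := hxx (t - 1)
            rwa [Nat.sub_add_cancel (by omega)] at this
          · rw [if_neg (by omega), if_neg (by omega)]
            exact hxx t
        exact ⟨⟨_, iht (by omega), h2⟩, hB ⟨t, hlt⟩ _ (fun i _ => hTB _ _) (hBP _ (hTB _ _))⟩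
    have hwm : φ (T m) = x (m - 1) := by
      have : T m = fun _ => x (m - 1) := by
        funext i
        simp only [hT]
        rw [if_pos i.2]
      rw [this, hφc]
    have hex : ∃ j, ∃ c ∈ L j, ∃ d ∈ L j, Rel E u v c d := by
      have h1 := hw m le_rfl
      rw [hwm] at h1
      obtain ⟨k, rfl⟩ : ∃ k, m = k + 1 := ⟨m - 1, by omega⟩
      obtain ⟨⟨c, hc, hcd⟩, -⟩ := h1
      exact ⟨k, c, hc, _, hxL k, hcd⟩
    -- the least such `j`
    obtain ⟨c, hc, d, hd, hcd⟩ := Nat.find_spec hex
    have hmin : ∀ j < Nat.find hex, ¬ ∃ c ∈ L j, ∃ d ∈ L j, Rel E u v c d :=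
      fun j hj => Nat.find_min hex hj
    rcases hj : Nat.find hex with _ | j
    · rw [hj] at hc hd
      have h1 : c = a := hc
      have h2 : d = a := hd
      rw [h1, h2] at hcd
      exact ⟨a, hcd⟩
    · rw [hj] at hc hd hmin
      by_cases hLeq : L (j + 1) = B
      · exfalso
        have h1 : x j ∈ L (j + 1) := by
          rw [hLeq]
          exact hxB j
        obtain ⟨⟨c', hc', hr⟩, -⟩ := h1
        exact hmin j (Nat.lt_succ_self _) ⟨c', hc', x j, hxL j, hr⟩
      · have hlt : (L (j + 1)).ncard < B.ncard :=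
          Set.ncard_lt_ncard ((hLB _).ssubset_of_ne hLeq) (Set.toFinite _)
        exact ih _ (by omega) (L (j + 1)) rfl (fun x hx => hBP x (hLB _ hx)) (hLA _)
          ⟨c, hc, d, hd, hcd⟩

theorem nu_merge [Finite X] {m : ℕ} (hm : 1 ≤ m) {φ : (Fin m → X) → X} {ψ : (Fin m → Y) → Y}
    (h : IsNU E m φ ψ) {u v : X} {y : Y} (hu : E u y) (hv : E v y) :
    ∃ f g, IsPoly E f g ∧ f u v = f v u := by
  obtain ⟨d, f, g, h1, h2, h3⟩ := loop hm h (u := u) (v := v) _ {x | ∃ y, E x y} rfl
    (fun x hx => hx) (by
      intro l c hc hl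
      have hall : ∀ i, ∃ y, E (c i) y := by
        intro i
        by_cases hi : i = l
        · rw [hi]
          exact hl
        · exact hc i hi
      choose q hq using hall
      exact ⟨ψ q, h.preserves c q hq⟩)
    ⟨u, ⟨y, hu⟩, v, ⟨y, hv⟩, _, _, IsPoly.fst, rfl, rfl⟩
  exact ⟨f, g, h1, h2.trans h3.symm⟩

theorem nu_merge' [Finite Y] {m : ℕ} (hm : 1 ≤ m) {φ : (Fin m → X) → X} {ψ : (Fin m → Y) → Y}
    (h : IsNU E m φ ψ) {u v : Y} {x : X} (hu : E x u) (hv : E x v) :
    ∃ f g, IsPoly E f g ∧ g u v = g v u := by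
  obtain ⟨g, f, h1, h2⟩ := nu_merge (E := fun y x => E x y) hm h.flip hu hv
  exact ⟨f, g, h1.flip, h2⟩

end

end Pool.Agent.V5helper9.PL
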