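import Pool.Agent.V5helper9.PL.Types
import Pool.Agent.V5helper9.PL.NU

/-!
# The theorem for relations
-/

set_option autoImplicit false

namespace Pool.Agent.V5helper9.PL

open Finset SimpleGraph Pool.Agent.Y384.EC

section

variable {X Y : Type*} {E : X → Y → Prop}

/-- Both operations at once. -/
def tt (f : X → X → X) (g : Y → Y → Y) : X ⊕ Y → X ⊕ Y → X ⊕ Y
  | Sum.inl x, Sum.inl x' => Sum.inl (f x x')
  | Sum.inr y, Sum.inr y' => Sum.inr (g y y')
  | a, _ => a

theorem adj_lr {x : X} {y : Y} : (bip E).Adj (Sum.inl x) (Sum.inr y) ↔ E x y := by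
  constructor
  · rintro (⟨x', y', h1, h2, h3⟩ | ⟨x', y', h1, h2, h3⟩)
    · cases h1
      cases h2
      exact h3
    · cases h1
  · intro h
    exact Or.inl ⟨x, y, rfl, rfl, h⟩

theorem adj_rl {x : X} {y : Y} : (bip E).Adj (Sum.inr y) (Sum.inl x) ↔ E x y := by
  rw [(bip E).adj_comm, adj_lr]

theorem not_ll {x x' : X} : ¬ (bip E).Adj (Sum.inl x) (Sum.inl x') := by
  rintro (⟨x', y', h1, h2, h3⟩ | ⟨x', y', h1, h2, h3⟩)
  · cases h2
  · cases h1

theorem not_rr {y y' : Y} : ¬ (bip E).Adj (Sum.inr y) (Sum.inr y') := by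
  rintro (⟨x', y', h1, h2, h3⟩ | ⟨x', y', h1, h2, h3⟩)
  · cases h1
  · cases h2

theorem tt_hn {f : X → X → X} {g : Y → Y → Y} (h : IsPoly E f g) :
    ∀ a a' b, (bip E).Adj a b → (bip E).Adj a' b → (bip E).Adj (tt f g a a') b := by
  rintro (a | a) (a' | a') (b | b) h1 h2
  · exact absurd h1 not_ll
  · rw [adj_lr] at h1 h2
    simp only [tt]
    rw [adj_lr]
    have := h.preserves _ _ _ _ h1 h2
    rwa [h.idem_right] at this
  · exact absurd h1 not_ll
  · exact absurd h2 not_rr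
  · exact absurd h2 not_ll
  · exact absurd h1 not_rr
  · rw [adj_rl] at h1 h2
    simp only [tt]
    rw [adj_rl]
    have := h.preserves _ _ _ _ h1 h2
    rwa [h.idem_left] at this
  · exact absurd h1 not_rr

theorem tt_hp {f : X → X → X} {g : Y → Y → Y} (h : IsPoly E f g) :
    ∀ a a' b b', (bip E).Adj a b → (bip E).Adj a' b → (bip E).Adj b' a →
      (bip E).Adj (tt f g a a') (tt f g b' b) := by
  rintro (a | a) (a' | a') (b | b) (b' | b') h1 h2 h3
  · exact absurd h1 not_ll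
  · exact absurd h1 not_ll
  · exact absurd h3 not_ll
  · rw [adj_lr] at h2
    rw [adj_rl] at h3
    simp only [tt]
    rw [adj_lr]
    exact h.preserves _ _ _ _ h3 h2
  · exact absurd h1 not_ll
  · exact absurd h1 not_ll
  · exact absurd h2 not_rr
  · exact absurd h2 not_rr
  · exact absurd h2 not_ll
  · exact absurd h2 not_ll
  · exact absurd h1 not_rr
  · exact absurd h1 not_rr
  · rw [adj_rl] at h2
    rw [adj_lr] at h3
    simp only [tt]
    rw [adj_rl]
    exact h.preserves _ _ _ _ h3 h2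
  · exact absurd h3 not_rr
  · exact absurd h1 not_rr
  · exact absurd h1 not_rr

/-- The values of `f x x'`, `x'` related to `y`. -/
def vals (E : X → Y → Prop) (f : X → X → X) (x : X) (y : Y) : Set X :=
  {w | ∃ x', E x' y ∧ f x x' = w}

/-- The polymorphism `f`, `g` is close to a projection at the pair `x`, `y`. -/
def Near (k K : ℕ) (E : X → Y → Prop) (f : X → X → X) (g : Y → Y → Y) (x : X) (y : Y) : Prop :=
  ((vals E f x y).ncard < k ∧ (vals (fun y x => E x y) g y x).ncard < k ∧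
    K ≤ (vals E (fun a b => f b a) x y).ncard ∧
    K ≤ (vals (fun y x => E x y) (fun a b => g b a) y x).ncard) ∨
  ((vals E (fun a b => f b a) x y).ncard < k ∧
    (vals (fun y x => E x y) (fun a b => g b a) y x).ncard < k ∧
    K ≤ (vals E f x y).ncard ∧ K ≤ (vals (fun y x => E x y) g y x).ncard)

variable [Fintype X] [Fintype Y] [DecidableEq X] [DecidableEq Y]

theorem Al_l (f : X → X → X) (g : Y → Y → Y) (x : X) (y : Y) :
    (Al (bip E) (tt f g) (Sum.inl x) (Sum.inr y)).card = (vals E f x y).ncard := by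
  rw [← Set.ncard_image_of_injective (vals E f x y) (Sum.inl_injective (β := Y)), ← Set.ncard_coe_finset]
  refine congrArg Set.ncard (Set.ext fun w => ?_)
  rw [mem_coe, mem_Al, Set.mem_image]
  constructor
  · rintro ⟨a' | a', h1, h2⟩
    · rw [adj_lr] at h1
      exact ⟨f x a', ⟨a', h1, rfl⟩, h2⟩
    · exact absurd h1 not_rr
  · rintro ⟨_, ⟨x', h1, rfl⟩, rfl⟩
    exact ⟨Sum.inl x', adj_lr.2 h1, rfl⟩

theorem Ar_l (f : X → X → X) (g : Y → Y → Y) (x : X) (y : Y) :
    (Ar (bip E) (tt f g) (Sum.inl x) (Sum.inr y)).card =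
      (vals E (fun a b => f b a) x y).ncard := by
  rw [← Set.ncard_image_of_injective (vals E (fun a b => f b a) x y) (Sum.inl_injective (β := Y)), ← Set.ncard_coe_finset]
  refine congrArg Set.ncard (Set.ext fun w => ?_)
  rw [mem_coe, mem_Ar, Set.mem_image]
  constructor
  · rintro ⟨a' | a', h1, h2⟩
    · rw [adj_lr] at h1
      exact ⟨f a' x, ⟨a', h1, rfl⟩, h2⟩
    · exact absurd h1 not_rr
  · rintro ⟨_, ⟨x', h1, rfl⟩, rfl⟩
    exact ⟨Sum.inl x', adj_lr.2 h1, rfl⟩

theorem Al_r (f : X → X → X) (g : Y → Y → Y) (x : X) (y : Y) :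
    (Al (bip E) (tt f g) (Sum.inr y) (Sum.inl x)).card =
      (vals (fun y x => E x y) g y x).ncard := by
  rw [← Set.ncard_image_of_injective (vals (fun y x => E x y) g y x) (Sum.inr_injective (α := X)), ← Set.ncard_coe_finset]
  refine congrArg Set.ncard (Set.ext fun w => ?_)
  rw [mem_coe, mem_Al, Set.mem_image]
  constructor
  · rintro ⟨a' | a', h1, h2⟩
    · exact absurd h1 not_ll
    · rw [adj_rl] at h1
      exact ⟨g y a', ⟨a', h1, rfl⟩, h2⟩
  · rintro ⟨_, ⟨x', h1, rfl⟩, rfl⟩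
    exact ⟨Sum.inr x', adj_rl.2 h1, rfl⟩

theorem Ar_r (f : X → X → X) (g : Y → Y → Y) (x : X) (y : Y) :
    (Ar (bip E) (tt f g) (Sum.inr y) (Sum.inl x)).card =
      (vals (fun y x => E x y) (fun a b => g b a) y x).ncard := by
  rw [← Set.ncard_image_of_injective (vals (fun y x => E x y) (fun a b => g b a) y x) (Sum.inr_injective (α := X)), ← Set.ncard_coe_finset]
  refine congrArg Set.ncard (Set.ext fun w => ?_)
  rw [mem_coe, mem_Ar, Set.mem_image]
  constructor
  · rintro ⟨a' | a', h1, h2⟩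
    · exact absurd h1 not_ll
    · rw [adj_rl] at h1
      exact ⟨g a' y, ⟨a', h1, rfl⟩, h2⟩
  · rintro ⟨_, ⟨x', h1, rfl⟩, rfl⟩
    exact ⟨Sum.inr x', adj_rl.2 h1, rfl⟩

theorem pr_iff (k K : ℕ) (f : X → X → X) (g : Y → Y → Y) (x : X) (y : Y) :
    Pr (bip E) (tt f g) k K (Sum.inl x) (Sum.inr y) ↔ Near k K E f g x y := by
  unfold Pr Near
  rw [Al_l, Al_r, Ar_l, Ar_r]

theorem near_bound {k : ℕ} (hk : 2 ≤ k) (hG : (cycleGraph (2 * k)).Free (bip E)) (K : ℕ)
    (hK : k ≤ K) {f : X → X → X} {g : Y → Y → Y} (h : IsPoly E f g) :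
    {p : X × Y | E p.1 p.2 ∧ ¬ Near k K E f g p.1 p.2}.ncard ≤
      2 * LL k K * (Nat.card X + Nat.card Y) := by
  classical
  set R : Finset ((X ⊕ Y) × (X ⊕ Y)) :=
    (univ.filter (fun p : X × Y => E p.1 p.2 ∧ ¬ Near k K E f g p.1 p.2)).image
      (fun p => (Sum.inl p.1, Sum.inr p.2)) with hR
  have h1 := not_proj hk hG (tt f g) (tt_hn h) (tt_hp h) K hK R (by
    intro q hq
    obtain ⟨p, hp, rfl⟩ := mem_image.1 hq
    have h2 := (mem_filter.1 hp).2
    exact ⟨adj_lr.2 h2.1, fun h3 => h2.2 ((pr_iff k K f g p.1 p.2).1 h3)⟩)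
  rw [Fintype.card_sum] at h1
  rw [Nat.card_eq_fintype_card, Nat.card_eq_fintype_card]
  refine le_trans ?_ h1
  rw [hR, card_image_of_injective _ (by
    intro p q hpq
    have h2 := congrArg Prod.fst hpq
    have h3 := congrArg Prod.snd hpq
    exact Prod.ext (Sum.inl_injective h2) (Sum.inr_injective h3))]
  rw [Set.ncard_eq_toFinset_card']
  refine card_le_card fun p hp => ?_
  rw [Set.mem_toFinset] at hp
  exact mem_filter.2 ⟨mem_univ _, hp⟩

end

section

variable {X Y : Type*} {E : X → Y → Prop}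

/-- The pairs of elements related to `y` which are not merged by any idempotent binary
polymorphism. -/
def Unm (E : X → Y → Prop) (y : Y) : Set (X × X) :=
  {p | E p.1 y ∧ E p.2 y ∧ ∀ f g, IsPoly E f g → f p.1 p.2 ≠ f p.2 p.1}

/-- If `f x x'` has few values and `f x' x` has many then there are many pairs that are not
merged. -/
theorem many_unm [Finite X] {k K : ℕ} {f : X → X → X} {g : Y → Y → Y} (h : IsPoly E f g)
    (hf : ∀ u v y, E u y → E v y → f u v ≠ f v u →
      ∀ t s, IsPoly E t s → t (f u v) (f v u) ≠ t (f v u) (f u v)) {x : X} {y : Y} (hxy : E x y)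
    (h1 : (vals E f x y).ncard < k) (h2 : K + k ≤ (vals E (fun a b => f b a) x y).ncard) :
    K ≤ (Unm E y).ncard := by
  classical
  have hd : K ≤ (vals E (fun a b => f b a) x y \ vals E f x y).ncard := by
    have := Set.le_ncard_sdiff (vals E f x y) (vals E (fun a b => f b a) x y) (Set.toFinite _)
    omega
  refine hd.trans ?_
  have hc : ∀ v : X, ∃ x', v ∈ vals E (fun a b => f b a) x y → (E x' y ∧ f x' x = v) := by
    intro v
    by_cases hv : v ∈ vals E (fun a b => f b a) x y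
    · obtain ⟨x', h3, h4⟩ := hv
      exact ⟨x', fun _ => ⟨h3, h4⟩⟩
    · exact ⟨x, fun h' => absurd h' hv⟩
  choose c hc using hc
  refine Set.ncard_le_ncard_of_injOn (fun v => (f x (c v), v)) ?_ ?_ (Set.toFinite _)
  · rintro v ⟨hv, hv'⟩
    obtain ⟨h3, h4⟩ := hc v hv
    have h5 := h.preserves _ _ _ _ hxy h3
    rw [h.idem_right] at h5
    have h6 := h.preserves _ _ _ _ h3 hxy
    rw [h.idem_right, h4] at h6
    refine ⟨h5, h6, fun t s hts => ?_⟩
    have h7 := hf x (c v) y hxy h3 (fun h8 => hv' ⟨c v, h3, h8.trans h4⟩) t s hts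
    rwa [h4] at h7
  · intro v _ v' _ hvv
    exact congrArg Prod.snd hvv

theorem unm_bound [Finite X] [Finite Y] {k : ℕ} (hk : 2 ≤ k)
    (hG : (cycleGraph (2 * k)).Free (bip E)) (M : ℕ) :
    {p : X × Y | E p.1 p.2 ∧ ¬ (M ≤ (Unm E p.2).ncard ∧
      M ≤ (Unm (fun y x => E x y) p.1).ncard)}.ncard ≤
      2 * LL k (M + k) * (Nat.card X + Nat.card Y) := by
  classical
  have := Fintype.ofFinite X
  have := Fintype.ofFinite Y
  obtain ⟨f, g, hfg, hf, hg⟩ := uniform (E := E)
  have h1 := near_bound hk hG (M + k) (by omega) hfg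
  refine le_trans (Set.ncard_le_ncard ?_ (Set.toFinite _)) h1
  rintro ⟨x, y⟩ ⟨h2, h3⟩
  refine ⟨h2, fun h4 => h3 ?_⟩
  simp only at h2 h3 h4 ⊢
  have hf' : ∀ u v y, E u y → E v y → (fun a b => f b a) u v ≠ (fun a b => f b a) v u →
      ∀ t s, IsPoly E t s → t ((fun a b => f b a) u v) ((fun a b => f b a) v u) ≠
        t ((fun a b => f b a) v u) ((fun a b => f b a) u v) := by
    intro u v y hu hv hne t s hts
    exact (hf u v y hu hv (Ne.symm hne) t s hts).symm
  have hg' : ∀ u v x, E x u → E x v → (fun a b => g b a) u v ≠ (fun a b => g b a) v u →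
      ∀ s t, IsPoly (fun y x => E x y) s t →
        s ((fun a b => g b a) u v) ((fun a b => g b a) v u) ≠
        s ((fun a b => g b a) v u) ((fun a b => g b a) u v) := by
    intro u v x hu hv hne s t hts
    exact (hg u v x hu hv (Ne.symm hne) t s hts.flip).symm
  have hg0 : ∀ u v x, E x u → E x v → g u v ≠ g v u →
      ∀ s t, IsPoly (fun y x => E x y) s t → s (g u v) (g v u) ≠ s (g v u) (g u v) := by
    intro u v x hu hv hne s t hts
    exact hg u v x hu hv hne t s hts.flip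
  rcases h4 with ⟨h5, h6, h7, h8⟩ | ⟨h5, h6, h7, h8⟩
  · exact ⟨many_unm hfg hf h2 h5 h7, many_unm hfg.flip hg0 h2 h6 h8⟩
  · exact ⟨many_unm hfg.swap hf' h2 h5 h7, many_unm hfg.flip.swap hg' h2 h6 h8⟩

/-- If all pairs with a common neighbour are merged then there are few edges. -/
theorem merged_bound [Finite X] [Finite Y] {k : ℕ} (hk : 2 ≤ k)
    (hG : (cycleGraph (2 * k)).Free (bip E)) (M : ℕ)
    (h1 : ∀ u v y, E u y → E v y → ∃ f g, IsPoly E f g ∧ f u v = f v u) :
    {p : X × Y | E p.1 p.2}.ncard ≤ 2 * LL k (M + 1 + k) * (Nat.card X + Nat.card Y) := by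
  refine le_trans (Set.ncard_le_ncard ?_ (Set.toFinite _)) (unm_bound hk hG (M + 1))
  rintro ⟨x, y⟩ h2
  refine ⟨h2, fun h3 => ?_⟩
  have h4 := h3.1
  have h5 : Unm E y = ∅ := by
    rw [Set.eq_empty_iff_forall_notMem]
    rintro ⟨u, v⟩ ⟨h6, h7, h8⟩
    obtain ⟨f, g, h9, h10⟩ := h1 u v y h6 h7
    exact h8 f g h9 h10
  rw [h5, Set.ncard_empty] at h4
  omega

theorem merged_bound' [Finite X] [Finite Y] {k : ℕ} (hk : 2 ≤ k)
    (hG : (cycleGraph (2 * k)).Free (bip E)) (M : ℕ)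
    (h1 : ∀ u v x, E x u → E x v → ∃ f g, IsPoly E f g ∧ g u v = g v u) :
    {p : X × Y | E p.1 p.2}.ncard ≤ 2 * LL k (M + 1 + k) * (Nat.card X + Nat.card Y) := by
  refine le_trans (Set.ncard_le_ncard ?_ (Set.toFinite _)) (unm_bound hk hG (M + 1))
  rintro ⟨x, y⟩ h2
  refine ⟨h2, fun h3 => ?_⟩
  have h4 := h3.2
  have h5 : Unm (fun y x => E x y) x = ∅ := by
    rw [Set.eq_empty_iff_forall_notMem]
    rintro ⟨u, v⟩ ⟨h6, h7, h8⟩
    obtain ⟨f, g, h9, h10⟩ := h1 u v x h6 h7
    exact h8 g f h9.flip h10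
  simp only at h4
  rw [h5, Set.ncard_empty] at h4
  omega

end

end Pool.Agent.V5helper9.PL
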