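import Mathlib

/-!
# Binary polymorphisms which merge pairs
-/

set_option autoImplicit false

namespace Pool.Agent.V5helper9.PL

/-- An idempotent binary polymorphism of the relation `E`. -/
structure IsPoly {X Y : Type*} (E : X → Y → Prop) (f : X → X → X) (g : Y → Y → Y) : Prop where
  idem_left : ∀ x, f x x = x
  idem_right : ∀ y, g y y = y
  preserves : ∀ x x' y y', E x y → E x' y' → E (f x x') (g y y')

section

variable {X Y : Type*} {E : X → Y → Prop}

theorem IsPoly.flip {f : X → X → X} {g : Y → Y → Y} (h : IsPoly E f g) :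
    IsPoly (fun y x => E x y) g f :=
  ⟨h.idem_right, h.idem_left, fun y y' x x' h1 h2 => h.preserves x x' y y' h1 h2⟩

theorem IsPoly.swap {f : X → X → X} {g : Y → Y → Y} (h : IsPoly E f g) :
    IsPoly E (fun x x' => f x' x) (fun y y' => g y' y) :=
  ⟨h.idem_left, h.idem_right, fun x x' y y' h1 h2 => h.preserves x' x y' y h2 h1⟩

theorem IsPoly.comp {f t : X → X → X} {g s : Y → Y → Y} (h : IsPoly E f g) (h' : IsPoly E t s) :
    IsPoly E (fun x x' => t (f x x') (f x' x)) (fun y y' => s (g y y') (g y' y)) := by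
  refine ⟨fun x => ?_, fun y => ?_, fun x x' y y' h1 h2 => ?_⟩
  · simp only [h.idem_left, h'.idem_left]
  · simp only [h.idem_right, h'.idem_right]
  · exact h'.preserves _ _ _ _ (h.preserves _ _ _ _ h1 h2) (h.preserves _ _ _ _ h2 h1)

theorem IsPoly.fst : IsPoly E (fun x _ => x) (fun y _ => y) :=
  ⟨fun _ => rfl, fun _ => rfl, fun _ _ _ _ h _ => h⟩

/-- The pairs with a common neighbour on which `f` does not commute. -/
def BadL (E : X → Y → Prop) (f : X → X → X) : Set (X × X) :=
  {p | (∃ y, E p.1 y ∧ E p.2 y) ∧ f p.1 p.2 ≠ f p.2 p.1}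

/-- There is a polymorphism `f`, `g` such that no polymorphism merges `f u v` and `f v u` if these are
different. -/
theorem uniform [Finite X] [Finite Y] :
    ∃ f g, IsPoly E f g ∧
      (∀ u v y, E u y → E v y → f u v ≠ f v u →
        ∀ t s, IsPoly E t s → t (f u v) (f v u) ≠ t (f v u) (f u v)) ∧
      (∀ u v x, E x u → E x v → g u v ≠ g v u →
        ∀ t s, IsPoly E t s → s (g u v) (g v u) ≠ s (g v u) (g u v)) := by
  have key : ∀ n : ℕ, ∀ f g, IsPoly E f g →
      (BadL E f).ncard + (BadL (fun y x => E x y) g).ncard ≤ n →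
      ∃ f g, IsPoly E f g ∧
        (∀ u v y, E u y → E v y → f u v ≠ f v u →
          ∀ t s, IsPoly E t s → t (f u v) (f v u) ≠ t (f v u) (f u v)) ∧
        (∀ u v x, E x u → E x v → g u v ≠ g v u →
          ∀ t s, IsPoly E t s → s (g u v) (g v u) ≠ s (g v u) (g u v)) := by
    intro n
    induction n with
    | zero =>
      intro f g hfg hn
      have e1 : BadL E f = ∅ := (Set.ncard_eq_zero (Set.toFinite _)).1 (by omega)
      have e2 : BadL (fun y x => E x y) g = ∅ := (Set.ncard_eq_zero (Set.toFinite _)).1 (by omega)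
      refine ⟨f, g, hfg, fun u v y hu hv hne => ?_, fun u v x hu hv hne => ?_⟩
      · have : (u, v) ∈ BadL E f := ⟨⟨y, hu, hv⟩, hne⟩
        rw [e1] at this
        exact absurd this (Set.notMem_empty _)
      · have : (u, v) ∈ BadL (fun y x => E x y) g := ⟨⟨x, hu, hv⟩, hne⟩
        rw [e2] at this
        exact absurd this (Set.notMem_empty _)
    | succ n ih =>
      intro f g hfg hn
      by_cases hb1 : ∃ p ∈ BadL E f, ∃ t s, IsPoly E t s ∧
          t (f p.1 p.2) (f p.2 p.1) = t (f p.2 p.1) (f p.1 p.2)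
      · obtain ⟨⟨u, v⟩, ⟨⟨y, hu, hv⟩, hne⟩, t, s, hts, hm⟩ := hb1
        simp only at hu hv hne hm
        have hc := hfg.comp hts
        refine ih _ _ hc ?_
        have h3 : BadL E (fun x x' => t (f x x') (f x' x)) ⊂ BadL E f := by
          refine ⟨?_, fun hsub => ?_⟩
          · rintro ⟨a, b⟩ ⟨h4, h5⟩
            refine ⟨h4, fun h6 => h5 ?_⟩
            simp only at h6 ⊢
            rw [h6]
          · have : (u, v) ∈ BadL E (fun x x' => t (f x x') (f x' x)) :=
              hsub ⟨⟨y, hu, hv⟩, hne⟩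
            exact this.2 hm
        have h4 : BadL (fun y x => E x y) (fun y y' => s (g y y') (g y' y)) ⊆
            BadL (fun y x => E x y) g := by
          rintro ⟨a, b⟩ ⟨h4, h5⟩
          refine ⟨h4, fun h6 => h5 ?_⟩
          simp only at h6 ⊢
          rw [h6]
        have h5 := Set.ncard_lt_ncard h3 (Set.toFinite _)
        have h6 := Set.ncard_le_ncard h4 (Set.toFinite _)
        omega
      · by_cases hb2 : ∃ p ∈ BadL (fun y x => E x y) g, ∃ t s, IsPoly E t s ∧
            s (g p.1 p.2) (g p.2 p.1) = s (g p.2 p.1) (g p.1 p.2)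
        · obtain ⟨⟨u, v⟩, ⟨⟨x, hu, hv⟩, hne⟩, t, s, hts, hm⟩ := hb2
          simp only at hu hv hne hm
          have hc := hfg.comp hts
          refine ih _ _ hc ?_
          have h3 : BadL (fun y x => E x y) (fun y y' => s (g y y') (g y' y)) ⊂
              BadL (fun y x => E x y) g := by
            refine ⟨?_, fun hsub => ?_⟩
            · rintro ⟨a, b⟩ ⟨h4, h5⟩
              refine ⟨h4, fun h6 => h5 ?_⟩
              simp only at h6 ⊢
              rw [h6]
            · have : (u, v) ∈ BadL (fun y x => E x y) (fun y y' => s (g y y') (g y' y)) :=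
                hsub ⟨⟨x, hu, hv⟩, hne⟩
              exact this.2 hm
          have h4 : BadL E (fun x x' => t (f x x') (f x' x)) ⊆ BadL E f := by
            rintro ⟨a, b⟩ ⟨h4, h5⟩
            refine ⟨h4, fun h6 => h5 ?_⟩
            simp only at h6 ⊢
            rw [h6]
          have h5 := Set.ncard_lt_ncard h3 (Set.toFinite _)
          have h6 := Set.ncard_le_ncard h4 (Set.toFinite _)
          omega
        · push Not at hb1 hb2
          exact ⟨f, g, hfg, fun u v y hu hv hne t s hts => hb1 (u, v) ⟨⟨y, hu, hv⟩, hne⟩ t s hts,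
            fun u v x hu hv hne t s hts => hb2 (u, v) ⟨⟨x, hu, hv⟩, hne⟩ t s hts⟩
  exact key _ _ _ IsPoly.fst le_rfl

/-- A near unanimity polymorphism of `E` with `m` arguments. -/
structure IsNU {X Y : Type*} (E : X → Y → Prop) (m : ℕ) (φ : (Fin m → X) → X)
    (ψ : (Fin m → Y) → Y) : Prop where
  nu_left : ∀ x x' i, φ (Function.update (fun _ => x) i x') = x
  nu_right : ∀ y y' i, ψ (Function.update (fun _ => y) i y') = y
  preserves : ∀ (p : Fin m → X) (q : Fin m → Y), (∀ i, E (p i) (q i)) → E (φ p) (ψ q)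

theorem IsNU.flip {m : ℕ} {φ : (Fin m → X) → X} {ψ : (Fin m → Y) → Y} (h : IsNU E m φ ψ) :
    IsNU (fun y x => E x y) m ψ φ :=
  ⟨h.nu_right, h.nu_left, fun q p hpq => h.preserves p q hpq⟩

/-- The values of the idempotent binary polymorphisms at `u`, `v`. -/
def Rel (E : X → Y → Prop) (u v p q : X) : Prop :=
  ∃ f g, IsPoly E f g ∧ f u v = p ∧ f v u = q

theorem Rel.symm {u v p q : X} (h : Rel E u v p q) : Rel E u v q p := by
  obtain ⟨f, g, h1, h2, h3⟩ := h
  exact ⟨_, _, h1.swap, h3, h2⟩

theorem rel_insert {m : ℕ} {φ : (Fin m → X) → X} {ψ : (Fin m → Y) → Y} (h : IsNU E m φ ψ)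
    {u v : X} (l : Fin m) (a b : Fin m → X) (hab : ∀ i, i ≠ l → Rel E u v (a i) (b i))
    (hl : a l = b l) (hP : ∃ y, E (a l) y) : Rel E u v (φ a) (φ b) := by
  classical
  obtain ⟨q, hq⟩ := hP
  have hex : ∀ i, ∃ (f : X → X → X) (g : Y → Y → Y),
      IsPoly E f g ∧ (i ≠ l → f u v = a i ∧ f v u = b i) := by
    intro i
    by_cases hi : i = l
    · exact ⟨_, _, IsPoly.fst, fun h => absurd hi h⟩
    · obtain ⟨f, g, h1, h2, h3⟩ := hab i hi
      exact ⟨f, g, h1, fun _ => ⟨h2, h3⟩⟩
  choose f g hfg hval using hex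
  refine ⟨fun x x' => φ (fun i => if i = l then a l else f i x x'),
    fun y y' => ψ (fun i => if i = l then q else g i y y'), ⟨fun x => ?_, fun y => ?_,
    fun x x' y y' h1 h2 => ?_⟩, ?_, ?_⟩
  · rw [← h.nu_left x (a l) l]
    refine congrArg φ (funext fun i => ?_)
    by_cases hi : i = l
    · rw [if_pos hi, hi, Function.update_self, ← hi]
    · rw [if_neg hi, Function.update_of_ne hi, (hfg i).idem_left, h.nu_left]
  · rw [← h.nu_right y q l]
    refine congrArg ψ (funext fun i => ?_)
    by_cases hi : i = l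
    · rw [if_pos hi, hi, Function.update_self]
    · rw [if_neg hi, Function.update_of_ne hi, (hfg i).idem_right, h.nu_right]
  · refine h.preserves _ _ fun i => ?_
    by_cases hi : i = l
    · rw [if_pos hi, if_pos hi]
      exact hq
    · rw [if_neg hi, if_neg hi]
      exact (hfg i).preserves _ _ _ _ h1 h2
  · refine congrArg φ (funext fun i => ?_)
    by_cases hi : i = l
    · rw [if_pos hi, hi]
    · rw [if_neg hi, (hval i hi).1]
  · refine congrArg φ (funext fun i => ?_)
    by_cases hi : i = l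
    · rw [if_pos hi, hi, hl]
    · rw [if_neg hi, (hval i hi).2]

end

end Pool.Agent.V5helper9.PL
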