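import Pool.Agent.V5helper9.PL.Core

/-!
# The types of the edges
-/

set_option autoImplicit false
set_option linter.unusedSectionVars false

namespace Pool.Agent.V5helper9.PL

open Finset SimpleGraph Pool.Agent.Y384.EC

section

variable {V : Type*} [Fintype V] [DecidableEq V] {G : SimpleGraph V} {k : ℕ}

theorem kkfree (hk : 2 ≤ k) (hG : (cycleGraph (2 * k)).Free G) (P Q : Finset V)
    (h : ∀ p ∈ P, ∀ q ∈ Q, G.Adj p q) : P.card < k ∨ Q.card < k := by
  by_contra hno
  push Not at hno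
  obtain ⟨P', hP', hPc⟩ := exists_subset_card_eq hno.1
  obtain ⟨Q', hQ', hQc⟩ := exists_subset_card_eq hno.2
  have eP := P'.equivFinOfCardEq hPc
  have eQ := Q'.equivFinOfCardEq hQc
  refine Pool.Agent.H96.Median.free_biclique hk hG ⟨⟨⟨fun i => Sum.elim
    (fun a => (eP.symm a : V)) (fun b => (eQ.symm b : V)) i, ?_⟩, ?_⟩⟩
  · rintro (a | a) (b | b) hab
    · simp at hab
    · exact h _ (hP' (eP.symm a).2) _ (hQ' (eQ.symm b).2)
    · exact (h _ (hP' (eP.symm b).2) _ (hQ' (eQ.symm a).2)).symm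
    · simp at hab
  · rintro (a | a) (b | b) hab
    · have h1 : (eP.symm a : V) = (eP.symm b : V) := hab
      exact congrArg _ (eP.symm.injective (Subtype.ext h1))
    · have h1 : (eP.symm a : V) = (eQ.symm b : V) := hab
      exact absurd h1 (h _ (hP' (eP.symm a).2) _ (hQ' (eQ.symm b).2)).ne
    · have h1 : (eQ.symm a : V) = (eP.symm b : V) := hab
      exact absurd h1.symm (h _ (hP' (eP.symm b).2) _ (hQ' (eQ.symm a).2)).ne
    · have h1 : (eQ.symm a : V) = (eQ.symm b : V) := hab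
      exact congrArg _ (eQ.symm.injective (Subtype.ext h1))

open Classical in
/-- The values `t a a'`, `a'` a neighbour of `b`. -/
noncomputable def Al (G : SimpleGraph V) (t : V → V → V) (a b : V) : Finset V :=
  (univ.filter (fun a' => G.Adj a' b)).image (fun a' => t a a')

open Classical in
/-- The values `t a' a`, `a'` a neighbour of `b`. -/
noncomputable def Ar (G : SimpleGraph V) (t : V → V → V) (a b : V) : Finset V :=
  (univ.filter (fun a' => G.Adj a' b)).image (fun a' => t a' a)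

theorem mem_Al {t : V → V → V} {a b w : V} :
    w ∈ Al G t a b ↔ ∃ a', G.Adj a' b ∧ t a a' = w := by
  classical
  unfold Al
  rw [mem_image]
  constructor
  · rintro ⟨a', h1, h2⟩
    exact ⟨a', (mem_filter.1 h1).2, h2⟩
  · rintro ⟨a', h1, h2⟩
    exact ⟨a', mem_filter.2 ⟨mem_univ _, h1⟩, h2⟩

theorem mem_Ar {t : V → V → V} {a b w : V} :
    w ∈ Ar G t a b ↔ ∃ a', G.Adj a' b ∧ t a' a = w := by
  classical
  unfold Ar
  rw [mem_image]
  constructor
  · rintro ⟨a', h1, h2⟩
    exact ⟨a', (mem_filter.1 h1).2, h2⟩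
  · rintro ⟨a', h1, h2⟩
    exact ⟨a', mem_filter.2 ⟨mem_univ _, h1⟩, h2⟩

/-- The constant for the edges of the second type. -/
def LL (k K : ℕ) : ℕ := K * K * KK k + K + K

theorem type_two (hk : 2 ≤ k) (hG : (cycleGraph (2 * k)).Free G) (t : V → V → V)
    (hn : ∀ a a' b, G.Adj a b → G.Adj a' b → G.Adj (t a a') b)
    (hp : ∀ a a' b b', G.Adj a b → G.Adj a' b → G.Adj b' a → G.Adj (t a a') (t b' b))
    (K : ℕ) (R : Finset (V × V)) (hR : ∀ p ∈ R, G.Adj p.1 p.2 ∧ (Al G t p.2 p.1).card < K ∧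
      (Ar G t p.2 p.1).card < K) : R.card ≤ LL k K * Fintype.card V := by
  classical
  have hb0 : ∀ a : V, ∃ b0 : V, (∃ b, (a, b) ∈ R) → (a, b0) ∈ R := by
    intro a
    by_cases h : ∃ b, (a, b) ∈ R
    · obtain ⟨b, hb⟩ := h
      exact ⟨b, fun _ => hb⟩
    · exact ⟨a, fun h' => absurd h' h⟩
  choose b0 hb0 using hb0
  have he : ∀ a : V, ∃ e : ℕ → V, (∃ b, (a, b) ∈ R) →
      ∀ w ∈ Al G t (b0 a) a, ∃ l < K, e l = w := by
    intro a
    by_cases h : ∃ b, (a, b) ∈ R
    · obtain ⟨e, he⟩ := enum (Al G t (b0 a) a) K (hR _ (hb0 a h)).2.1.le a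
      exact ⟨e, fun _ => he⟩
    · exact ⟨fun _ => a, fun h' => absurd h' h⟩
  have he' : ∀ a : V, ∃ e : ℕ → V, (∃ b, (a, b) ∈ R) →
      ∀ w ∈ Ar G t (b0 a) a, ∃ l < K, e l = w := by
    intro a
    by_cases h : ∃ b, (a, b) ∈ R
    · obtain ⟨e, he⟩ := enum (Ar G t (b0 a) a) K (hR _ (hb0 a h)).2.2.le a
      exact ⟨e, fun _ => he⟩
    · exact ⟨fun _ => a, fun h' => absurd h' h⟩
  choose e he using he
  choose e' he' using he'
  have hcov : R ⊆ ((range K ×ˢ range K).biUnion (fun l => R.filter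
      (fun p => FF G t (fun a => e a l.1) (fun a => e' a l.2) p.1 p.2))) ∪
      (((range K).biUnion (fun l => R.filter (fun p => e p.1 l = p.2))) ∪
        ((range K).biUnion (fun l => R.filter (fun p => e' p.1 l = p.2)))) := by
    rintro ⟨a, b⟩ hab
    have hab' := hR _ hab
    have h0 := hR _ (hb0 a ⟨b, hab⟩)
    simp only at hab' h0
    obtain ⟨i, hi, hi'⟩ := he a ⟨b, hab⟩ (t (b0 a) b) (mem_Al.2 ⟨b, hab'.1.symm, rfl⟩)
    obtain ⟨j, hj, hj'⟩ := he' a ⟨b, hab⟩ (t b (b0 a)) (mem_Ar.2 ⟨b, hab'.1.symm, rfl⟩)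
    by_cases hib : e a i = b
    · exact mem_union_right _ (mem_union_left _ (mem_biUnion.2 ⟨i, mem_range.2 hi,
        mem_filter.2 ⟨hab, hib⟩⟩))
    · by_cases hjb : e' a j = b
      · exact mem_union_right _ (mem_union_right _ (mem_biUnion.2 ⟨j, mem_range.2 hj,
          mem_filter.2 ⟨hab, hjb⟩⟩))
      · refine mem_union_left _ (mem_biUnion.2 ⟨(i, j), mem_product.2 ⟨mem_range.2 hi,
          mem_range.2 hj⟩, mem_filter.2 ⟨hab, hab'.1, ?_, ?_, hib, hjb, fun a' ha' => ⟨?_, ?_⟩⟩⟩)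
        · simp only
          rw [hi']
          exact hn _ _ _ h0.1.symm hab'.1.symm
        · simp only
          rw [hj']
          exact hn _ _ _ hab'.1.symm h0.1.symm
        · simp only
          rw [hi']
          exact (hp a a' b (b0 a) hab'.1 ha' h0.1.symm).symm
        · simp only
          rw [hj']
          exact hp b (b0 a) a a' hab'.1.symm h0.1.symm ha'
  have hone : ∀ e : V → V, (R.filter (fun p => e p.1 = p.2)).card ≤ Fintype.card V := by
    intro e
    rw [← card_univ]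
    refine card_le_card_of_injOn Prod.fst (fun _ _ => by simp) ?_
    intro p hp q hq h
    rw [mem_coe, mem_filter] at hp hq
    refine Prod.ext h ?_
    rw [← hp.2, ← hq.2, h]
  have h1 : ((range K ×ˢ range K).biUnion (fun l => R.filter
      (fun p => FF G t (fun a => e a l.1) (fun a => e' a l.2) p.1 p.2))).card ≤
      K * K * (KK k * Fintype.card V) := by
    refine card_biUnion_le.trans ((sum_le_card_nsmul _ _ (KK k * Fintype.card V)
      fun l _ => ?_).trans ?_)
    · exact two_ptr hk hG t hn _ _ _ (fun p hp => (mem_filter.1 hp).2)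
    · rw [card_product, card_range, smul_eq_mul]
  have h2 : ((range K).biUnion (fun l => R.filter (fun p => e p.1 l = p.2))).card ≤
      K * Fintype.card V := by
    refine card_biUnion_le.trans ((sum_le_card_nsmul _ _ (Fintype.card V)
      fun l _ => hone (fun a => e a l)).trans ?_)
    rw [card_range, smul_eq_mul]
  have h3 : ((range K).biUnion (fun l => R.filter (fun p => e' p.1 l = p.2))).card ≤
      K * Fintype.card V := by
    refine card_biUnion_le.trans ((sum_le_card_nsmul _ _ (Fintype.card V)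
      fun l _ => hone (fun a => e' a l)).trans ?_)
    rw [card_range, smul_eq_mul]
  calc R.card ≤ _ := card_le_card hcov
    _ ≤ _ := card_union_le _ _
    _ ≤ K * K * (KK k * Fintype.card V) + (K * Fintype.card V + K * Fintype.card V) :=
      Nat.add_le_add h1 ((card_union_le _ _).trans (Nat.add_le_add h2 h3))
    _ = LL k K * Fintype.card V := by
      unfold LL
      ring

theorem two_types (hk : 2 ≤ k) (hG : (cycleGraph (2 * k)).Free G) (t : V → V → V)
    (hn : ∀ a a' b, G.Adj a b → G.Adj a' b → G.Adj (t a a') b)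
    (hp : ∀ a a' b b', G.Adj a b → G.Adj a' b → G.Adj b' a → G.Adj (t a a') (t b' b))
    (K : ℕ) (R : Finset (V × V)) (hR : ∀ p ∈ R, G.Adj p.1 p.2 ∧
      (((Al G t p.2 p.1).card < K ∧ (Ar G t p.2 p.1).card < K) ∨
      ((Al G t p.1 p.2).card < K ∧ (Ar G t p.1 p.2).card < K))) :
    R.card ≤ 2 * LL k K * Fintype.card V := by
  classical
  have h1 := type_two hk hG t hn hp K (R.filter (fun p => (Al G t p.2 p.1).card < K ∧
    (Ar G t p.2 p.1).card < K)) (fun p hp => ⟨(hR p (mem_filter.1 hp).1).1,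
      (mem_filter.1 hp).2⟩)
  have h2 := type_two hk hG t hn hp K ((R.filter (fun p => (Al G t p.1 p.2).card < K ∧
    (Ar G t p.1 p.2).card < K)).image Prod.swap) (fun p hp => by
      obtain ⟨q, hq, rfl⟩ := mem_image.1 hp
      exact ⟨(hR q (mem_filter.1 hq).1).1.symm, (mem_filter.1 hq).2⟩)
  rw [card_image_of_injective _ Prod.swap_injective] at h2
  have h3 : R ⊆ R.filter (fun p => (Al G t p.2 p.1).card < K ∧ (Ar G t p.2 p.1).card < K) ∪
      R.filter (fun p => (Al G t p.1 p.2).card < K ∧ (Ar G t p.1 p.2).card < K) := by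
    intro p hp
    rcases (hR p hp).2 with h | h
    · exact mem_union_left _ (mem_filter.2 ⟨hp, h⟩)
    · exact mem_union_right _ (mem_filter.2 ⟨hp, h⟩)
  have h4 := (card_le_card h3).trans (card_union_le _ _)
  calc R.card ≤ _ := h4
    _ ≤ LL k K * Fintype.card V + LL k K * Fintype.card V := Nat.add_le_add h1 h2
    _ = 2 * LL k K * Fintype.card V := by ring

theorem types (hk : 2 ≤ k) (hG : (cycleGraph (2 * k)).Free G) (t : V → V → V)
    (hp : ∀ a a' b b', G.Adj a b → G.Adj a' b → G.Adj b' a → G.Adj (t a a') (t b' b))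
    {a b : V} (hab : G.Adj a b) :
    ((Al G t a b).card < k ∨ (Ar G t b a).card < k) ∧
    ((Ar G t a b).card < k ∨ (Al G t b a).card < k) := by
  constructor
  · refine kkfree hk hG _ _ ?_
    intro p hpm q hqm
    obtain ⟨a', ha', rfl⟩ := mem_Al.1 hpm
    obtain ⟨b', hb', rfl⟩ := mem_Ar.1 hqm
    exact hp a a' b b' hab ha' hb'
  · refine kkfree hk hG _ _ ?_
    intro p hpm q hqm
    obtain ⟨a', ha', rfl⟩ := mem_Ar.1 hpm
    obtain ⟨b', hb', rfl⟩ := mem_Al.1 hqm
    exact (hp b b' a a' hab.symm hb' ha').symm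

/-- The operation `t` is close to a projection at `a`, `b`. -/
def Pr (G : SimpleGraph V) (t : V → V → V) (k K : ℕ) (a b : V) : Prop :=
  ((Al G t a b).card < k ∧ (Al G t b a).card < k ∧ K ≤ (Ar G t a b).card ∧
    K ≤ (Ar G t b a).card) ∨
  ((Ar G t a b).card < k ∧ (Ar G t b a).card < k ∧ K ≤ (Al G t a b).card ∧
    K ≤ (Al G t b a).card)

/-- All but few of the edges are of the type of the first or of the second projection. -/
theorem not_proj (hk : 2 ≤ k) (hG : (cycleGraph (2 * k)).Free G) (t : V → V → V)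
    (hn : ∀ a a' b, G.Adj a b → G.Adj a' b → G.Adj (t a a') b)
    (hp : ∀ a a' b b', G.Adj a b → G.Adj a' b → G.Adj b' a → G.Adj (t a a') (t b' b))
    (K : ℕ) (hK : k ≤ K) (R : Finset (V × V)) (hR : ∀ p ∈ R, G.Adj p.1 p.2 ∧
      ¬ Pr G t k K p.1 p.2) :
    R.card ≤ 2 * LL k K * Fintype.card V := by
  refine two_types hk hG t hn hp K R fun p hp' => ?_
  obtain ⟨h1, h2⟩ := hR p hp'
  obtain ⟨h3, h4⟩ := types hk hG t hp h1
  refine ⟨h1, ?_⟩
  unfold Pr at h2
  omega

end

end Pool.Agent.V5helper9.PL
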